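import Pool.Agent.H74.G.R_seed8.W564.SC.Defs3

/-!
Project SC (helper564), part E: points with exponentially fast returns can be closed.
-/

open scoped Manifold ContDiff Topology
open Filter Set Metric

universe u

namespace Pool.Agent.W723.SC

open Pool.Agent.H718R2.G Pool.Agent.W564.SC

theorem it_nat {n : ℕ} {N : Type*} [TopologicalSpace N] [ChartedSpace (V n) N] {r : ℕ∞}
    (F : DiffM n N r) (q : ℕ) (y : N) : it F (q : ℤ) y = F^[q] y := by
  unfold it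
  rw [zpow_natCast, ← Equiv.Perm.iterate_eq_pow]
  rfl

theorem one_time {n : ℕ} {N : Type u} [TopologicalSpace N] [T2Space N]
    [ChartedSpace (V n) N] (F : N → N) (hF : Continuous F)
    (χ : OpenPartialHomeomorph N (V n)) (z : N) (hχ : GoodChart n N χ z) (m : ℕ)
    (hm : F^[m] z ≠ z) : ∃ W ∈ 𝓝 z, ∃ c : ℝ, 0 < c ∧ ∀ y ∈ W, F^[m] y ∈ χ.source →
      c ≤ ‖χ (F^[m] y) - χ y‖ := by
  obtain ⟨u, v, hu, hv, hzu, hzv, huv⟩ := t2_separation hm
  have h0 : (0 : V n) ∈ χ.target := hχ.ball (mem_closedBall_self zero_le_one)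
  have hs0 : χ.symm 0 = z := by
    rw [← hχ.zero]
    exact χ.left_inv hχ.src
  have h1 : χ.symm ⁻¹' v ∈ 𝓝 (0 : V n) := by
    refine (χ.continuousAt_symm h0).preimage_mem_nhds (hv.mem_nhds ?_)
    rw [hs0]
    exact hzv
  obtain ⟨δ, hδ, h2⟩ := Metric.mem_nhds_iff.1 h1
  have h3 : F^[m] ⁻¹' u ∈ 𝓝 z := (hF.iterate m).continuousAt.preimage_mem_nhds (hu.mem_nhds hzu)
  have h4 : χ ⁻¹' (ball (0 : V n) (δ / 2)) ∈ 𝓝 z := by
    refine (χ.continuousAt hχ.src).preimage_mem_nhds ?_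
    rw [hχ.zero]
    exact ball_mem_nhds _ (half_pos hδ)
  refine ⟨_, inter_mem h3 h4, δ / 2, half_pos hδ, ?_⟩
  rintro y ⟨hy1, hy2⟩ hy3
  by_contra hlt
  push Not at hlt
  have hy4 : ‖χ y‖ < δ / 2 := by simpa using hy2
  have h5 : ‖χ (F^[m] y)‖ < δ := by
    calc ‖χ (F^[m] y)‖ = ‖(χ (F^[m] y) - χ y) + χ y‖ := by rw [sub_add_cancel]
      _ ≤ ‖χ (F^[m] y) - χ y‖ + ‖χ y‖ := norm_add_le _ _
      _ < δ := by linarith
  have h6 : χ.symm (χ (F^[m] y)) ∈ v := h2 (by simpa using h5)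
  rw [χ.left_inv hy3] at h6
  exact (Set.disjoint_left.1 huv) hy1 h6

theorem fin_time {n : ℕ} {N : Type u} [TopologicalSpace N] [T2Space N]
    [ChartedSpace (V n) N] (F : N → N) (hF : Continuous F)
    (χ : OpenPartialHomeomorph N (V n)) (z : N) (hχ : GoodChart n N χ z)
    (hm : ∀ m, 1 ≤ m → F^[m] z ≠ z) (M : ℕ) : ∃ W ∈ 𝓝 z, ∃ c : ℝ, 0 < c ∧ ∀ y ∈ W, ∀ m, 1 ≤ m →
      m < M → F^[m] y ∈ χ.source → c ≤ ‖χ (F^[m] y) - χ y‖ := by
  induction M with
  | zero => exact ⟨univ, univ_mem, 1, one_pos, fun y _ m _ h => absurd h (Nat.not_lt_zero m)⟩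
  | succ M ih =>
    obtain ⟨W, hW, c, hc, h⟩ := ih
    by_cases hM : 1 ≤ M
    · obtain ⟨W', hW', c', hc', h'⟩ := one_time F hF χ z hχ M (hm M hM)
      refine ⟨_, inter_mem hW hW', min c c', lt_min hc hc', ?_⟩
      rintro y ⟨hy, hy'⟩ m hm1 hmM hms
      rcases Nat.lt_succ_iff_lt_or_eq.1 hmM with h1 | h1
      · exact (min_le_left _ _).trans (h y hy m hm1 h1 hms)
      · subst h1
        exact (min_le_right _ _).trans (h' y hy' hms)
    · exact ⟨W, hW, c, hc, fun y _ m h1 h2 => absurd h2 (by omega)⟩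

theorem exp_bd {K : ℝ} (hK : 2 ≤ K) (a m : ℕ) :
    ((K ^ m)⁻¹) ^ a = Real.exp (-(a * Real.log K * m)) := by
  have h0 : 0 < K := by linarith
  have h1 : (a : ℝ) * Real.log K * m = ((m * a : ℕ) : ℝ) * Real.log K := by
    push_cast
    ring
  rw [h1, Real.exp_neg, Real.exp_nat_mul, Real.exp_log h0, inv_pow, ← pow_mul]

theorem e (h1 : S_ACM.{u}) (h2 : S_ABS) (h3 : S_CL.{u}) : S_E.{u} := by
  intro n N _ _ _ _ _ r hr F
  have hr1 : (1 : ℕ∞) ≤ r := le_trans (by norm_num) hr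
  obtain ⟨K, hK, hACM⟩ := h1 n N r hr F
  have hK0 : 0 < K := by linarith
  have hlogK : 0 ≤ Real.log K := Real.log_nonneg (by linarith)
  choose a ha using fun k : ℕ => h2 n (max k 1) (le_max_right _ _)
  obtain ⟨C, hC⟩ : ∃ C : ℕ → ℝ, C = fun k => ∑ j ∈ Finset.range (k + 1), (a j : ℝ) * Real.log K :=
    ⟨_, rfl⟩
  have hCmono : Monotone C := by
    refine monotone_nat_of_le_succ fun k => ?_
    rw [hC]
    simp only
    rw [Finset.sum_range_succ (n := k + 1)]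
    have : 0 ≤ (a (k + 1) : ℝ) * Real.log K := mul_nonneg (Nat.cast_nonneg _) hlogK
    linarith
  have hCa : ∀ k, (a k : ℝ) * Real.log K ≤ C k := by
    intro k
    rw [hC]
    simp only
    exact Finset.single_le_sum (f := fun j => (a j : ℝ) * Real.log K)
      (fun j _ => mul_nonneg (Nat.cast_nonneg _) hlogK) (Finset.mem_range.2 (Nat.lt_succ_self k))
  have hC0 : ∀ k, 0 ≤ C k := fun k => (mul_nonneg (Nat.cast_nonneg _) hlogK).trans (hCa k)
  refine ⟨C, hCmono, ?_⟩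
  intro z χ hχ
  by_cases hcl : Closable n N r F z
  · exact Or.inl hcl
  right
  unfold Closable at hcl
  push Not at hcl
  obtain ⟨U, hU, hFU, hno⟩ := hcl
  have hfam : IsFam n N r (fun _ : ℝ => F) := by
    intro y
    exact ContMDiffAt.comp ((0 : ℝ), y) (F.contMDiff.contMDiffAt (x := y)) contMDiffAt_snd
  obtain ⟨k, hkr, κ, hκ, hcl⟩ := h3 n N r hr1 ℝ (fun _ => F) hfam χ z hχ U hU hFU
  have hk1r : ((max k 1 : ℕ) : ℕ∞) ≤ r := by
    rcases le_total k 1 with h | h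
    · rw [max_eq_right h]
      simpa using hr1
    · rw [max_eq_left h]
      exact hkr
  obtain ⟨m₀, hm₀⟩ := hACM χ z hχ
  obtain ⟨κ', hκ'⟩ : ∃ κ' : ℝ, κ' = min κ (1 / 16) := ⟨_, rfl⟩
  have hκ'0 : 0 < κ' := by rw [hκ']; exact lt_min hκ (by norm_num)
  have hκ'1 : κ' ≤ 1 / 16 := by rw [hκ']; exact min_le_right _ _
  have hκ'2 : κ' ≤ κ := by rw [hκ']; exact min_le_left _ _
  obtain ⟨Λ₀, hΛ₀⟩ := ha (max k 1) κ' hκ'0 hκ'1
  have hmax : max (max k 1) 1 = max k 1 := max_eq_left (le_max_right _ _)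
  rw [hmax] at hΛ₀
  obtain ⟨M₁, hM₁⟩ := Filter.eventually_atTop.1
    ((tendsto_pow_atTop_atTop_of_one_lt (by linarith : (1 : ℝ) < K)).eventually_ge_atTop Λ₀)
  obtain ⟨W, hW, c, hc, hWc⟩ := fin_time F F.continuous χ z hχ
    (fun m hm1 hmz => hno F hFU ⟨m, hm1, hmz⟩) (max m₀ M₁)
  have hW2 : χ ⁻¹' (ball (0 : V n) κ') ∈ 𝓝 z := by
    refine (χ.continuousAt hχ.src).preimage_mem_nhds ?_
    rw [hχ.zero]
    exact ball_mem_nhds _ hκ'0
  refine ⟨max k 1, hk1r, W ∩ (χ.source ∩ χ ⁻¹' (ball (0 : V n) κ')),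
    inter_mem hW (inter_mem (χ.open_source.mem_nhds hχ.src) hW2), ?_, min c (1 / 8),
    lt_min hc (by norm_num), ?_⟩
  · rintro y ⟨_, hy, _⟩
    exact hy
  rintro y ⟨hyW, hys, hyb⟩ m hm hmy
  have hyκ : ‖χ y‖ < κ' := by simpa using hyb
  have hexp1 : Real.exp (-(C (max k 1) * m)) ≤ 1 := by
    rw [Real.exp_le_one_iff]
    have := mul_nonneg (hC0 (max k 1)) (Nat.cast_nonneg m)
    linarith
  have hexp0 : 0 < Real.exp (-(C (max k 1) * m)) := Real.exp_pos _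
  by_cases hmM : m < max m₀ M₁
  · calc min c (1 / 8) * Real.exp (-(C (max k 1) * m)) ≤ c * 1 :=
        mul_le_mul (min_le_left _ _) hexp1 hexp0.le hc.le
      _ = c := mul_one c
      _ ≤ _ := hWc y hyW m hm hmM hmy
  · by_contra hlt
    push Not at hlt
    have hm0 : m₀ ≤ m := (le_max_left _ _).trans (not_lt.1 hmM)
    have hm1 : M₁ ≤ m := (le_max_right _ _).trans (not_lt.1 hmM)
    obtain ⟨A, hA⟩ := hm₀ m hm0 y hys (hyκ.le.trans hκ'1)
    have hlt8 : ‖χ (F^[m] y) - χ y‖ < 1 / 8 := by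
      refine hlt.trans_le ?_
      calc min c (1 / 8) * Real.exp (-(C (max k 1) * m)) ≤ 1 / 8 * 1 :=
          mul_le_mul (min_le_right _ _) hexp1 hexp0.le (by norm_num)
        _ = 1 / 8 := by norm_num
    have hlta : ‖χ (F^[m] y) - χ y‖ ≤ ((K ^ m)⁻¹) ^ a (max k 1) := by
      refine hlt.le.trans ?_
      rw [exp_bd hK]
      calc min c (1 / 8) * Real.exp (-(C (max k 1) * m)) ≤ 1 * Real.exp (-(C (max k 1) * m)) :=
          mul_le_mul_of_nonneg_right ((min_le_right _ _).trans (by norm_num)) hexp0.le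
        _ = Real.exp (-(C (max k 1) * m)) := one_mul _
        _ ≤ _ := by
          rw [Real.exp_le_exp]
          have := mul_le_mul_of_nonneg_right (hCa (max k 1)) (Nat.cast_nonneg (α := ℝ) m)
          linarith
    have hmK : (m : ℝ) ≤ K ^ m := by
      calc (m : ℝ) ≤ 2 ^ m := by exact_mod_cast Nat.lt_two_pow_self.le
        _ ≤ K ^ m := pow_le_pow_left₀ (by norm_num) hK m
    have hPm : it F (m : ℤ) y ∈ χ.source ∧ ‖χ (it F (m : ℤ) y)‖ ≤ 1 / 4 := by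
      rw [it_nat]
      refine ⟨hmy, ?_⟩
      calc ‖χ (F^[m] y)‖ = ‖(χ (F^[m] y) - χ y) + χ y‖ := by rw [sub_add_cancel]
        _ ≤ ‖χ (F^[m] y) - χ y‖ + ‖χ y‖ := norm_add_le _ _
        _ ≤ 1 / 4 := by linarith
    obtain ⟨q, ρ, hq1, hqm, hPq, hρ0, hρκ, hvq, hlow⟩ := hΛ₀ m (K ^ m) _ _ A hA (hM₁ m hm1) hmK hm
      hPm (by simpa only [it_nat] using hlta)
    obtain ⟨q', rfl⟩ := Int.eq_ofNat_of_zero_le (by omega : 0 ≤ q)
    simp only [it_nat] at hPq hvq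
    have hρ1 : ρ ≤ 1 := by linarith
    obtain ⟨G, hGU, hG⟩ := hcl 0 y ρ q' (by simpa using hκ) hys (hyκ.trans_le hκ'2) hρ0
      (hρκ.trans_le hκ'2) (by exact_mod_cast hq1) hPq.1
      (by
        refine hvq.trans_le ?_
        have e1 : ρ ^ (max k 1) ≤ ρ ^ k := pow_le_pow_of_le_one hρ0.le hρ1 (le_max_left _ _)
        exact mul_le_mul hκ'2 e1 (by positivity) hκ.le)
      (by
        intro i hi0 hiq his
        by_cases h4 : ‖χ (F^[i] y)‖ ≤ 1 / 4
        · have := hlow (i : ℤ) (by exact_mod_cast hi0) (by exact_mod_cast hiq)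
            (by rw [it_nat]; exact ⟨his, h4⟩)
          rwa [it_nat] at this
        · push Not at h4
          have e2 : ‖χ (F^[i] y)‖ ≤ ‖χ (F^[i] y) - χ y‖ + ‖χ y‖ := by
            calc ‖χ (F^[i] y)‖ = ‖(χ (F^[i] y) - χ y) + χ y‖ := by rw [sub_add_cancel]
              _ ≤ _ := norm_add_le _ _
          have e3 : ‖χ (F^[i] y) - χ y‖ ≥ 2 * ρ := by linarith
          exact e3)
    exact hno G hGU hG

end Pool.Agent.W723.SC
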